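import Pool.Agent.R796.SSFinal

/-!
# The cubic dimension spectral sequence degenerates at a page depending only on the scale

Definitions (`Pool.Agent.R796.SSDefs`), following the problem text:
* `V n = {0,1}^n`, `IsSimplex r s`: `s` is a nonempty set of vertices with pairwise Hamming
  distance at most `r`; `cubicDim s`: the number of coordinates which are not constant on `s`;
* chains are functions on the finite sets of vertices; `bd` is the simplicial boundary operator,
  with every simplex oriented by the lexicographic order; `Ch k n r p m = C_m(X^{n,r}_p)`;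
* `Zi k n r i p m = {x ∈ C_m(X_p) : ∂x ∈ C_{m-1}(X_{p-i})}`;
* `Page k n r i p q`: the standard page
  `E^i_{p,q} = Z^i_{p,q} / (Z^{i-1}_{p-1,q+1} + ∂ Z^{i-1}_{p+i-1,q-i+2})` of the homology spectral
  sequence of the filtered complex, and `dPage k n r i p q` is its differential
  `d^i : E^i_{p,q} → E^i_{p-i,q+i-1}`, induced by the boundary operator.
-/

set_option autoImplicit false

universe u

namespace Pool.Agent.Results.MP_e813cc_gt.Degeneration

open Pool.Agent.R796.SS

/-- All differentials `d^i` with `i ≥ 1 + ∑_{j=1}^r (r+1)^j` of the spectral sequence of `X^{n,r}`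
vanish, for all `n` and `r` and over every field. -/
theorem result (k : Type u) [Field k] (r n : ℕ) (i p q : ℤ)
    (hi : (1 + ∑ j ∈ Finset.Icc 1 r, (r + 1) ^ j : ℕ) ≤ i) : dPage k n r i p q = 0 := by
  apply dPage_eq_zero
  unfold sBound
  push_cast at hi ⊢
  linarith

end Pool.Agent.Results.MP_e813cc_gt.Degeneration
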